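import Pool.Agent.Helper764.Jump_stepup

/-!
# Quadruples: numbers of red quadruples of five points
-/

set_option autoImplicit false

open Finset

namespace Pool.Agent.U843.EC

open Jump764.M_stepup

/-- the colour of three values: monotone triples are coloured by the first differences of the values -/
noncomputable def G (a b c : ℕ) : Bool :=
  if a < b ∧ b < c then decide (suD b c < suD a b)
  else if c < b ∧ b < a then decide (suD b a < suD c b)
  else decide (a < b)

lemma G_inc {a b c : ℕ} (h1 : a < b) (h2 : b < c) : G a b c = decide (suD b c < suD a b) := by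
  rw [G, if_pos ⟨h1, h2⟩]

lemma G_dec {a b c : ℕ} (h1 : b < a) (h2 : c < b) : G a b c = decide (suD b a < suD c b) := by
  rw [G, if_neg (by omega), if_pos ⟨h2, h1⟩]

lemma G_max {a b c : ℕ} (h1 : a < b) (h2 : c < b) : G a b c = true := by
  rw [G, if_neg (by omega), if_neg (by omega)]
  exact decide_eq_true h1

lemma G_min {a b c : ℕ} (h1 : b < a) (h2 : b < c) : G a b c = false := by
  rw [G, if_neg (by omega), if_neg (by omega)]
  exact decide_eq_false (by omega)

lemma count5 (a b c d : ℕ) (h1 : a ≠ b) (h2 : b ≠ c) (h3 : c ≠ d) (h4 : max a b ≠ c)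
    (h5 : a ≠ max b c) (h6 : max b c ≠ d) (h7 : b ≠ max c d) :
    (G b c d).toNat + (G (max a b) c d).toNat + (G a (max b c) d).toNat
      + (G a b (max c d)).toNat + (G a b c).toNat ≠ 2 ∧
    (G b c d).toNat + (G (max a b) c d).toNat + (G a (max b c) d).toNat
      + (G a b (max c d)).toNat + (G a b c).toNat ≠ 4 := by
  rcases lt_or_gt_of_ne h1 with h1 | h1 <;> rcases lt_or_gt_of_ne h2 with h2 | h2 <;>
    rcases lt_or_gt_of_ne h3 with h3 | h3
  · -- a < b < c < d
    rw [max_eq_right h1.le, max_eq_right h2.le, max_eq_right h3.le, G_inc h2 h3,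
      G_inc (h1.trans h2) h3, G_inc h1 (h2.trans h3), G_inc h1 h2, suD_max h1 h2, suD_max h2 h3]
    have e1 := suD_ne h1 h2
    have e2 := suD_ne h2 h3
    simp only [Bool.toNat, Bool.cond_decide]
    split_ifs <;> omega
  · -- a < b < c > d
    rw [max_eq_right h1.le, max_eq_right h2.le, max_eq_left h3.le, G_max h2 h3,
      G_max (h1.trans h2) h3, G_inc h1 h2]
    simp only [Bool.toNat, Bool.cond_decide, cond_true]
    split_ifs <;> omega
  · -- a < b > c < d
    rw [max_eq_right h1.le, max_eq_left h2.le, max_eq_right h3.le, G_min h2 h3, G_max h1 h2]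
    rw [max_eq_left h2.le] at h6
    rcases lt_or_gt_of_ne h6 with h6 | h6
    · rw [G_inc h1 h6]
      simp only [Bool.toNat, Bool.cond_decide, cond_true, cond_false]
      split_ifs <;> omega
    · rw [G_max h1 h6]
      simp
  · -- a < b > c > d
    rw [max_eq_right h1.le, max_eq_left h2.le, max_eq_left h3.le, G_dec h2 h3, G_max h1 h2,
      G_max h1 (h3.trans h2)]
    simp only [Bool.toNat, Bool.cond_decide, cond_true]
    split_ifs <;> omega
  · -- a > b < c < d
    rw [max_eq_left h1.le, max_eq_right h2.le, max_eq_right h3.le, G_inc h2 h3,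
      G_min h1 (h2.trans h3), G_min h1 h2]
    rw [max_eq_right h2.le] at h5
    rcases lt_or_gt_of_ne h5 with h5 | h5
    · rw [G_inc h5 h3, suD_max h1 h5]
      simp only [Bool.toNat, Bool.cond_decide, cond_false]
      split_ifs <;> omega
    · rw [G_min h5 h3]
      simp only [Bool.toNat, Bool.cond_decide, cond_false]
      split_ifs <;> omega
  · -- a > b < c > d
    rw [max_eq_left h1.le, max_eq_right h2.le, max_eq_left h3.le, G_max h2 h3, G_min h1 h2]
    rw [max_eq_right h2.le] at h5
    rcases lt_or_gt_of_ne h5 with h5 | h5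
    · rw [G_max h5 h3]
      simp
    · rw [G_dec h5 h3]
      simp only [Bool.toNat, Bool.cond_decide, cond_true, cond_false]
      split_ifs <;> omega
  · -- a > b > c < d
    rw [max_eq_left h1.le, max_eq_left h2.le, max_eq_right h3.le, G_min h2 h3,
      G_min (h2.trans h1) h3, G_dec h1 h2]
    rw [max_eq_left h2.le] at h6
    rcases lt_or_gt_of_ne h6 with h6 | h6
    · rw [G_min h1 h6]
      simp only [Bool.toNat, Bool.cond_decide, cond_false]
      split_ifs <;> omega
    · rw [G_dec h1 h6, suD_max h3 h6]
      simp only [Bool.toNat, Bool.cond_decide, cond_false]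
      split_ifs <;> omega
  · -- a > b > c > d
    rw [max_eq_left h1.le, max_eq_left h2.le, max_eq_left h3.le, G_dec h2 h3,
      G_dec (h2.trans h1) h3, G_dec h1 (h3.trans h2), G_dec h1 h2, suD_max h3 h2,
      suD_max h2 h1]
    have e1 := suD_ne h3 h2
    have e2 := suD_ne h2 h1
    simp only [Bool.toNat, Bool.cond_decide]
    split_ifs <;> omega

end Pool.Agent.U843.EC
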