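import Pool.Agent.U843.EC.Four

/-!
# Stepping up: sequences of first differences, deletion of a point
-/

set_option autoImplicit false

open Finset

namespace Pool.Agent.U843.EC

open Jump764.M_stepup

/-- increasing on the indices below `m` -/
def Up (m : ℕ) (d : ℕ → ℕ) : Prop := ∀ i, i + 1 < m → d i < d (i + 1)

/-- decreasing on the indices below `m` -/
def Dn (m : ℕ) (d : ℕ → ℕ) : Prop := ∀ i, i + 1 < m → d (i + 1) < d i

open Classical in
/-- the colour of a sequence of `m` differences -/
noncomputable def colD (χ : Finset ℕ → Bool) (m : ℕ) (d : ℕ → ℕ) : Bool :=
  if Up m d ∨ Dn m d then χ ((range m).image d) else decide (d 0 < d 1)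

lemma colD_congr (χ : Finset ℕ → Bool) {m : ℕ} (hm : 2 ≤ m) {d d' : ℕ → ℕ}
    (h : ∀ i < m, d i = d' i) : colD χ m d = colD χ m d' := by
  have h1 : Up m d ↔ Up m d' := by
    constructor
    · intro hu i hi
      rw [← h i (by omega), ← h (i + 1) hi]
      exact hu i hi
    · intro hu i hi
      rw [h i (by omega), h (i + 1) hi]
      exact hu i hi
  have h2 : Dn m d ↔ Dn m d' := by
    constructor
    · intro hu i hi
      rw [← h i (by omega), ← h (i + 1) hi]
      exact hu i hi
    · intro hu i hi
      rw [h i (by omega), h (i + 1) hi]
      exact hu i hi
  have h3 : (range m).image d = (range m).image d' :=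
    Finset.image_congr fun i hi => h i (by simpa using hi)
  unfold colD
  rw [h1, h2, h3, h 0 (by omega), h 1 (by omega)]

lemma colD_of (χ : Finset ℕ → Bool) {m : ℕ} {d : ℕ → ℕ} {i j : ℕ} (hi : i + 1 < m)
    (hj : j + 1 < m) (h1 : d i < d (i + 1)) (h2 : d (j + 1) < d j) :
    colD χ m d = decide (d 0 < d 1) := by
  unfold colD
  rw [if_neg]
  rintro (h | h)
  · exact absurd (h j hj) (by omega)
  · exact absurd (h i hi) (by omega)

/-- the index without `k` -/
def skip (k j : ℕ) : ℕ := if j < k then j else j + 1

lemma image_skip {m : ℕ} {d : ℕ → ℕ} (hd : Set.InjOn d (range (m + 1) : Finset ℕ)) {k : ℕ}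
    (hk : k ≤ m) : (range m).image (fun j => d (skip k j)) = ((range (m + 1)).image d).erase (d k) := by
  ext x
  simp only [mem_image, mem_range, mem_erase]
  constructor
  · rintro ⟨j, hj, rfl⟩
    have h1 : skip k j < m + 1 := by unfold skip; split_ifs <;> omega
    refine ⟨fun h => ?_, skip k j, h1, rfl⟩
    have h2 := hd (by simpa using h1) (by simpa using Nat.lt_succ_of_le hk) h
    unfold skip at h2
    split_ifs at h2 <;> omega
  · rintro ⟨hx, i, hi, rfl⟩
    have hik : i ≠ k := by rintro rfl; exact hx rfl
    rcases lt_or_gt_of_ne hik with h | h
    · refine ⟨i, by omega, ?_⟩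
      simp only [skip, if_pos h]
    · refine ⟨i - 1, by omega, ?_⟩
      have h2 : ¬ (i - 1 < k) := by omega
      simp only [skip, if_neg h2]
      congr 1
      omega

/-- the differences after the deletion of the point number `i` -/
def dd (d : ℕ → ℕ) (i j : ℕ) : ℕ :=
  if j + 1 < i then d j else if j + 1 = i then max (d j) (d (j + 1)) else d (j + 1)

lemma up_injOn {m : ℕ} {d : ℕ → ℕ} (h : Up m d) : Set.InjOn d (range m : Finset ℕ) := by
  have h1 := su_chain (r := fun a b => a < b) (fun a b c h1 h2 => lt_trans h1 h2) d 0 m
    (fun i _ hi => h i hi)
  intro i hi j hj hij
  rw [Finset.mem_coe, mem_range] at hi hj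
  rcases lt_trichotomy i j with h2 | h2 | h2
  · exact absurd hij (h1 i j (Nat.zero_le _) h2 hj).ne
  · exact h2
  · exact absurd hij (h1 j i (Nat.zero_le _) h2 hi).ne'

lemma dn_injOn {m : ℕ} {d : ℕ → ℕ} (h : Dn m d) : Set.InjOn d (range m : Finset ℕ) := by
  have h1 := su_chain (r := fun a b => b < a) (fun a b c h1 h2 => lt_trans h2 h1) d 0 m
    (fun i _ hi => h i hi)
  intro i hi j hj hij
  rw [Finset.mem_coe, mem_range] at hi hj
  rcases lt_trichotomy i j with h2 | h2 | h2
  · exact absurd hij (ne_of_gt (h1 i j (Nat.zero_le _) h2 hj))
  · exact h2
  · exact absurd hij (ne_of_lt (h1 j i (Nat.zero_le _) h2 hi))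

/-- If some deletion is blue then another one is blue. -/
theorem two_blue (χ : Finset ℕ → Bool) {m : ℕ} (hm : 3 ≤ m) {d : ℕ → ℕ}
    (hne : ∀ i < m, d i ≠ d (i + 1))
    (hχ : Up (m + 1) d ∨ Dn (m + 1) d → ∀ j ≤ m,
      χ (((range (m + 1)).image d).erase (d j)) = false →
      ∃ j' ≤ m, j' ≠ j ∧ χ (((range (m + 1)).image d).erase (d j')) = false)
    {i : ℕ} (hi : i ≤ m + 1) (hb : colD χ m (dd d i) = false) :
    ∃ i' ≤ m + 1, i' ≠ i ∧ colD χ m (dd d i') = false := by
  by_cases hup : Up (m + 1) d
  · -- increasing
    have hcol : ∀ i ≤ m + 1, colD χ m (dd d i) =
        χ (((range (m + 1)).image d).erase (d (i - 1))) := by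
      intro i hi
      have e1 : ∀ j < m, dd d i j = d (skip (i - 1) j) := by
        intro j hj
        have h1 := hup j (by omega)
        unfold dd skip
        by_cases h2 : j + 1 < i
        · rw [if_pos h2, if_pos (by omega)]
        · have h3 : ¬ (j < i - 1) := by omega
          rw [if_neg h2, if_neg h3]
          split_ifs
          · exact max_eq_right h1.le
          · rfl
      rw [colD_congr χ (by omega) e1, ← image_skip (up_injOn hup) (by omega)]
      unfold colD
      rw [if_pos]
      left
      intro j hj
      have h1 := su_chain (r := fun a b => a < b) (fun a b c h1 h2 => lt_trans h1 h2) d 0 (m + 1)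
        (fun i _ hi => hup i hi)
      refine h1 _ _ (Nat.zero_le _) ?_ ?_
      · unfold skip; split_ifs <;> omega
      · unfold skip; split_ifs <;> omega
    rw [hcol i hi] at hb
    obtain ⟨j', hj', h1, h2⟩ := hχ (Or.inl hup) (i - 1) (by omega) hb
    refine ⟨j' + 1, by omega, by omega, ?_⟩
    rw [hcol _ (by omega)]
    exact h2
  by_cases hdn : Dn (m + 1) d
  · -- decreasing
    have hcol : ∀ i ≤ m + 1, colD χ m (dd d i) =
        χ (((range (m + 1)).image d).erase (d (min i m))) := by
      intro i hi
      have e1 : ∀ j < m, dd d i j = d (skip (min i m) j) := by
        intro j hj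
        have h1 := hdn j (by omega)
        unfold dd skip
        by_cases h2 : j + 1 < i
        · rw [if_pos h2, if_pos (by omega)]
        · rw [if_neg h2]
          by_cases h3 : j + 1 = i
          · rw [if_pos h3, if_pos (by omega)]
            exact max_eq_left h1.le
          · rw [if_neg h3, if_neg (by omega)]
      rw [colD_congr χ (by omega) e1, ← image_skip (dn_injOn hdn) (by omega)]
      unfold colD
      rw [if_pos]
      right
      intro j hj
      have h1 := su_chain (r := fun a b => b < a) (fun a b c h1 h2 => lt_trans h2 h1) d 0 (m + 1)
        (fun i _ hi => hdn i hi)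
      refine h1 _ _ (Nat.zero_le _) ?_ ?_
      · unfold skip; split_ifs <;> omega
      · unfold skip; split_ifs <;> omega
    rw [hcol i hi] at hb
    obtain ⟨j', hj', h1, h2⟩ := hχ (Or.inr hdn) (min i m) (by omega) hb
    refine ⟨j', by omega, by omega, ?_⟩
    rw [hcol _ (by omega), min_eq_left hj']
    exact h2
  -- not monotone
  rcases lt_or_gt_of_ne (show d 0 ≠ d 1 from hne 0 (by omega)) with h0 | h0
  · rcases Nat.lt_or_ge i 2 with hi2 | hi2
    · -- the first two points
      have e1 : ∀ j < m, dd d 0 j = dd d 1 j := by
        intro j hj
        unfold dd
        rw [if_neg (by omega), if_neg (by omega), if_neg (by omega)]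
        by_cases h2 : j + 1 = 1
        · rw [if_pos h2]
          have h3 : j = 0 := by omega
          subst h3
          exact (max_eq_right h0.le).symm
        · rw [if_neg h2]
      have e2 := colD_congr χ (by omega) e1
      refine ⟨1 - i, by omega, by omega, ?_⟩
      interval_cases i
      · rw [← hb]; exact e2.symm
      · rw [← hb]; exact e2
    · -- the deleted sequence begins increasing
      have hs : dd d i 0 < dd d i 1 := by
        unfold dd
        rw [if_pos (by omega)]
        by_cases h2 : 1 + 1 < i
        · rw [if_pos h2]; exact h0
        · rw [if_neg h2, if_pos (by omega)]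
          exact lt_of_lt_of_le h0 (le_max_left _ _)
      have hmono : Up m (dd d i) := by
        by_contra hnu
        unfold colD at hb
        rw [if_neg] at hb
        · rw [decide_eq_true hs] at hb
          exact absurd hb (by simp)
        · rintro (h | h)
          · exact hnu h
          · have := h 0 (by omega)
            simp only [zero_add] at this
            omega
      -- a descent of d
      obtain ⟨j, hj, hdj⟩ : ∃ j, j < m ∧ d (j + 1) < d j := by
        by_contra hcon
        push Not at hcon
        apply hup
        intro j hj
        have h1 := hcon j (by omega)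
        have h2 := hne j (by omega)
        omega
      have hj1 : ¬ (j + 2 < i) := by
        intro h
        have h1 := hmono j (by omega)
        unfold dd at h1
        rw [if_pos (by omega), if_pos (by omega)] at h1
        omega
      have hj2 : ¬ (i + 1 ≤ j) := by
        intro h
        have h1 := hmono (j - 1) (by omega)
        unfold dd at h1
        rw [if_neg (by omega), if_neg (by omega), if_neg (by omega), if_neg (by omega)] at h1
        have e : j - 1 + 1 = j := by omega
        rw [e] at h1
        omega
      have hj3 : j ≠ i := by
        rintro rfl
        have h1 := hmono (j - 1) (by omega)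
        unfold dd at h1
        have e : j - 1 + 1 = j := by omega
        rw [if_neg (by omega), if_pos (by omega), if_neg (by omega), if_neg (by omega), e] at h1
        have h2 := le_max_right (d (j - 1)) (d j)
        omega
      rcases (by omega : i = j + 1 ∨ i = j + 2) with h | h
      · -- i = j + 1
        subst h
        have hlast : j + 1 < m → d (j + 1) < d (j + 2) := by
          intro h
          have h1 := hmono j (by omega)
          unfold dd at h1
          rw [if_neg (by omega), if_pos rfl, if_neg (by omega), if_neg (by omega)] at h1
          have h2 := le_max_left (d j) (d (j + 1))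
          change _ < d (j + 2) at h1
          omega
        have e1 : ∀ l < m, dd d (j + 1) l = dd d (j + 2) l := by
          intro l hl
          unfold dd
          by_cases h1 : l + 1 < j + 1
          · rw [if_pos h1, if_pos (by omega)]
          · rw [if_neg h1]
            by_cases h2 : l + 1 = j + 1
            · have h3 : l = j := by omega
              subst h3
              rw [if_pos rfl, if_pos (by omega)]
              exact max_eq_left hdj.le
            · rw [if_neg h2, if_neg (by omega)]
              by_cases h3 : l + 1 = j + 2
              · have h4 : l = j + 1 := by omega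
                subst h4
                rw [if_pos rfl]
                exact (max_eq_right (hlast (by omega)).le).symm
              · rw [if_neg h3]
        refine ⟨j + 2, by omega, by omega, ?_⟩
        rw [← hb]
        exact (colD_congr χ (by omega) e1).symm
      · -- i = j + 2
        subst h
        have hlast : j + 1 < m → d (j + 1) < d (j + 2) := by
          intro h
          have h1 := hmono j (by omega)
          unfold dd at h1
          rw [if_pos (by omega), if_neg (by omega), if_pos (by omega)] at h1
          change d j < max (d (j + 1)) (d (j + 2)) at h1
          rcases le_total (d (j + 1)) (d (j + 2)) with h2 | h2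
          · rw [max_eq_right h2] at h1
            omega
          · rw [max_eq_left h2] at h1
            omega
        have e1 : ∀ l < m, dd d (j + 1) l = dd d (j + 2) l := by
          intro l hl
          unfold dd
          by_cases h1 : l + 1 < j + 1
          · rw [if_pos h1, if_pos (by omega)]
          · rw [if_neg h1]
            by_cases h2 : l + 1 = j + 1
            · have h3 : l = j := by omega
              subst h3
              rw [if_pos rfl, if_pos (by omega)]
              exact max_eq_left hdj.le
            · rw [if_neg h2, if_neg (by omega)]
              by_cases h3 : l + 1 = j + 2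
              · have h4 : l = j + 1 := by omega
                subst h4
                rw [if_pos rfl]
                exact (max_eq_right (hlast (by omega)).le).symm
              · rw [if_neg h3]
        refine ⟨j + 1, by omega, by omega, ?_⟩
        rw [← hb]
        exact colD_congr χ (by omega) e1
  · rcases lt_or_gt_of_ne (show d 1 ≠ d 2 from hne 1 (by omega)) with h1 | h1
    · -- d 0 > d 1 < d 2: delete point 3 or 4
      have hc3 : colD χ m (dd d 3) = false := by
        rw [colD_of χ (i := 1) (j := 0) (by omega) (by omega)]
        · unfold dd
          rw [if_pos (by omega), if_pos (by omega)]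
          exact decide_eq_false (by omega)
        · unfold dd
          rw [if_pos (by omega), if_neg (by omega), if_pos (by omega)]
          exact lt_of_lt_of_le h1 (le_max_left _ _)
        · unfold dd
          rw [if_pos (by omega), if_pos (by omega)]
          exact h0
      have hc4 : colD χ m (dd d 4) = false := by
        rw [colD_of χ (i := 1) (j := 0) (by omega) (by omega)]
        · unfold dd
          rw [if_pos (by omega), if_pos (by omega)]
          exact decide_eq_false (by omega)
        · unfold dd
          rw [if_pos (by omega), if_pos (by omega)]
          exact h1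
        · unfold dd
          rw [if_pos (by omega), if_pos (by omega)]
          exact h0
      by_cases hi3 : i = 3
      · exact ⟨4, by omega, by omega, hc4⟩
      · exact ⟨3, by omega, by omega, hc3⟩
    · -- d 0 > d 1 > d 2
      obtain ⟨j, hj, hdj⟩ : ∃ j, j < m ∧ d j < d (j + 1) := by
        by_contra hcon
        push Not at hcon
        apply hdn
        intro j hj
        have h1 := hcon j (by omega)
        have h2 := hne j (by omega)
        omega
      have hj2 : 2 ≤ j := by
        by_contra hcon
        have h3 : j < 2 := by omega
        interval_cases j
        · change d 0 < d 1 at hdj; omega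
        · change d 1 < d 2 at hdj; omega
      have hc0 : colD χ m (dd d 0) = false := by
        rw [colD_of χ (i := j - 1) (j := 0) (by omega) (by omega)]
        · unfold dd
          rw [if_neg (by omega), if_neg (by omega), if_neg (by omega), if_neg (by omega)]
          refine decide_eq_false ?_
          change ¬ (d 1 < d 2)
          omega
        · unfold dd
          rw [if_neg (by omega), if_neg (by omega), if_neg (by omega), if_neg (by omega)]
          have e : j - 1 + 1 = j := by omega
          rw [e]
          exact hdj
        · unfold dd
          rw [if_neg (by omega), if_neg (by omega), if_neg (by omega), if_neg (by omega)]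
          exact h1
      have hc1 : colD χ m (dd d 1) = false := by
        rw [colD_of χ (i := j - 1) (j := 0) (by omega) (by omega)]
        · unfold dd
          rw [if_neg (by omega), if_pos (by omega), if_neg (by omega), if_neg (by omega)]
          refine decide_eq_false ?_
          have h2 := le_max_left (d 0) (d 1)
          change ¬ (max (d 0) (d 1) < d 2)
          omega
        · unfold dd
          rw [if_neg (by omega), if_neg (by omega), if_neg (by omega), if_neg (by omega)]
          have e : j - 1 + 1 = j := by omega
          rw [e]
          exact hdj
        · unfold dd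
          rw [if_neg (by omega), if_neg (by omega), if_neg (by omega), if_pos (by omega)]
          have h2 := le_max_left (d 0) (d 1)
          change d 2 < max (d 0) (d 1)
          omega
      by_cases hi0 : i = 0
      · exact ⟨1, by omega, by omega, hc1⟩
      · exact ⟨0, by omega, by omega, hc0⟩

end Pool.Agent.U843.EC
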