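import Pool.Agent.U843.EC.Step

/-!
# Sharpness of the tower height for one forbidden number of edges on `r + 1` points
-/

set_option autoImplicit false

open Finset

namespace Pool.Agent.U843.EC

open Jump764.M_stepup

/-- the tower `2 ^ (2 ^ (… ^ x))` with `s` twos -/
def tow : ℕ → ℕ → ℕ
  | 0, x => x
  | s + 1, x => 2 ^ tow s x

/-! ### Counting -/

lemma count_eq (c : Finset ℕ → Bool) {m : ℕ} {V : Finset ℕ} (hV : V.card = m + 1) :
    ((V.powersetCard m).filter fun e => c e = true).card =
      (V.filter fun x => c (V.erase x) = true).card := by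
  symm
  refine Finset.card_bij (fun x _ => V.erase x) ?_ ?_ ?_
  · intro x hx
    rw [mem_filter] at hx ⊢
    refine ⟨mem_powersetCard.2 ⟨erase_subset _ _, ?_⟩, hx.2⟩
    rw [card_erase_of_mem hx.1, hV, Nat.add_sub_cancel]
  · intro x hx x' hx' h
    rw [mem_filter] at hx hx'
    by_contra hne
    have h1 : x ∈ V.erase x' := mem_erase.2 ⟨hne, hx.1⟩
    have h2 : x ∈ V.erase x := by
      have h3 : V.erase x = V.erase x' := h
      rw [h3]; exact h1
    exact absurd h2 (by simp)
  · intro e he
    rw [mem_filter, mem_powersetCard] at he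
    obtain ⟨⟨he1, he2⟩, he3⟩ := he
    have h1 : (V \ e).card = 1 := by
      rw [card_sdiff_of_subset he1, hV, he2]; omega
    obtain ⟨x, hx⟩ := Finset.card_eq_one.1 h1
    have hxV : x ∈ V \ e := by rw [hx]; simp
    rw [mem_sdiff] at hxV
    have h2 : V.erase x = e := by
      ext z
      rw [mem_erase]
      constructor
      · rintro ⟨hz, hzV⟩
        by_contra hze
        have : z ∈ V \ e := mem_sdiff.2 ⟨hzV, hze⟩
        rw [hx, mem_singleton] at this
        exact hz this
      · intro hz
        exact ⟨fun h => hxV.2 (h ▸ hz), he1 hz⟩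
    refine ⟨x, mem_filter.2 ⟨hxV.1, by rw [h2]; exact he3⟩, h2⟩

/-- no `m + 1` points have exactly one blue `m`-subset -/
def NotOne (c : Finset ℕ → Bool) (m N : ℕ) : Prop :=
  ∀ V ⊆ range N, V.card = m + 1 → ∀ x ∈ V, c (V.erase x) = false →
    ∃ x' ∈ V, x' ≠ x ∧ c (V.erase x') = false

lemma count_ne {c : Finset ℕ → Bool} {m N : ℕ} (h : NotOne c m N) {V : Finset ℕ}
    (hVN : V ⊆ range N) (hV : V.card = m + 1) :
    ((V.powersetCard m).filter fun e => c e = true).card ≠ m := by
  rw [count_eq c hV]
  intro hcon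
  have h1 := Finset.card_filter_add_card_filter_not (s := V) (fun x => c (V.erase x) = true)
  rw [hcon, hV] at h1
  have h2 : (V.filter fun x => ¬ c (V.erase x) = true).card = 1 := by omega
  obtain ⟨x, hx⟩ := Finset.card_eq_one.1 h2
  have hxm : x ∈ V.filter fun x => ¬ c (V.erase x) = true := by rw [hx]; simp
  rw [mem_filter] at hxm
  obtain ⟨x', hx', h3, h4⟩ := h V hVN hV x hxm.1 (by simpa using hxm.2)
  have h5 : x' ∈ V.filter fun x => ¬ c (V.erase x) = true :=
    mem_filter.2 ⟨hx', by rw [h4]; simp⟩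
  rw [hx, mem_singleton] at h5
  exact h3 h5

lemma notOne_of {c : Finset ℕ → Bool} {m N : ℕ} (h : ∀ V ⊆ range N, V.card = m + 1 →
    ((V.powersetCard m).filter fun e => c e = true).card ≠ m) : NotOne c m N := by
  intro V hVN hV x hx hb
  by_contra hcon
  push Not at hcon
  apply h V hVN hV
  rw [count_eq c hV]
  have h1 : (V.filter fun x => c (V.erase x) = true) = V.erase x := by
    ext z
    rw [mem_filter, mem_erase]
    constructor
    · rintro ⟨hz, hz2⟩
      refine ⟨?_, hz⟩
      rintro rfl
      rw [hb] at hz2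
      exact absurd hz2 (by simp)
    · rintro ⟨hz, hzV⟩
      refine ⟨hzV, ?_⟩
      have := hcon z hzV hz
      simpa using this
  rw [h1, card_erase_of_mem hx, hV, Nat.add_sub_cancel]

/-! ### Triples -/

open Classical in
/-- the colouring of the triples by comparing the two differences -/
noncomputable def phi (V : Finset ℕ) : Bool :=
  decide (∃ y, IncOn 3 y ∧ V = (range 3).image y ∧ dl y 1 < dl y 0)

lemma phi_eq {y : ℕ → ℕ} (hy : IncOn 3 y) :
    phi ((range 3).image y) = decide (dl y 1 < dl y 0) := by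
  classical
  unfold phi
  by_cases h : dl y 1 < dl y 0
  · rw [decide_eq_true h]
    exact decide_eq_true ⟨y, hy, rfl, h⟩
  · rw [decide_eq_false h]
    refine decide_eq_false ?_
    rintro ⟨y', hy', he, h2⟩
    have h3 := inc_unique hy hy' he
    apply h
    have e0 := h3 0 (by omega)
    have e1 := h3 1 (by omega)
    have e2 := h3 2 (by omega)
    change suD (y' 1) (y' 2) < suD (y' 0) (y' 1) at h2
    change suD (y 1) (y 2) < suD (y 0) (y 1)
    rw [e0, e1, e2]
    exact h2

lemma phi_hom (k : ℕ) : ∀ Y ⊆ range (2 ^ k), k + 2 ≤ Y.card → ∀ c, ∃ e ⊆ Y, e.card = 3 ∧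
    phi e = c := by
  intro Y hY hk c
  by_contra hcon
  push Not at hcon
  obtain ⟨n, hn⟩ : ∃ n, n = Y.card := ⟨_, rfl⟩
  rw [← hn] at hk
  obtain ⟨y, hy, rfl⟩ := exists_enum hn.symm
  have hmem : ∀ i < n, y i < 2 ^ k := fun i hi =>
    mem_range.1 (hY (mem_image_of_mem _ (mem_range.2 hi)))
  have hlt : ∀ i, i + 1 < n → dl y i < k := fun i hi =>
    suD_lt (hmem i (by omega)) (hmem (i + 1) hi) (hy _ _ (by omega) (by omega))
  have hne : ∀ i, i + 2 < n → dl y i ≠ dl y (i + 1) := fun i hi =>
    suD_ne (hy _ _ (by omega) (by omega)) (hy _ _ (by omega) (by omega))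
  have hcol : ∀ i, i + 2 < n → decide (dl y (i + 1) < dl y i) ≠ c := by
    intro i hi
    have h1 : IncOn 3 (fun j => y (i + j)) := fun a b hab hb => hy _ _ (by omega) (by omega)
    have h2 := phi_eq h1
    have h3 : phi ((range 3).image fun j => y (i + j)) ≠ c := by
      refine hcon _ ?_ (inc_card h1)
      intro v hv
      rw [mem_image] at hv
      obtain ⟨l, hl, rfl⟩ := hv
      rw [mem_range] at hl
      exact mem_image_of_mem _ (mem_range.2 (by omega))
    rw [h2] at h3
    exact h3
  rcases hc : c with _ | _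
  · -- all decreasing
    have hd : ∀ i, i + 1 < n → dl y i + i ≤ dl y 0 := by
      intro i
      induction i with
      | zero => intro _; exact le_rfl
      | succ i ih =>
        intro hi
        have h1 := ih (by omega)
        have h2 := hcol i (by omega)
        rw [hc] at h2
        have h3 : dl y (i + 1) < dl y i := by
          by_contra h4
          exact h2 (decide_eq_false h4)
        omega
    have h1 := hd (n - 2) (by omega)
    have h2 := hlt 0 (by omega)
    omega
  · have hd : ∀ i, i + 1 < n → i ≤ dl y i := by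
      intro i
      induction i with
      | zero => intro _; exact Nat.zero_le _
      | succ i ih =>
        intro hi
        have h1 := ih (by omega)
        have h2 := hcol i (by omega)
        have h4 := hne i (by omega)
        rw [hc] at h2
        have h3 : ¬ dl y (i + 1) < dl y i := fun h5 => h2 (decide_eq_true h5)
        omega
    have h1 := hd (n - 2) (by omega)
    have h2 := hlt (n - 2) (by omega)
    omega

/-! ### Quadruples -/

lemma colD_phi {d : ℕ → ℕ} (h1 : d 0 ≠ d 1) (h2 : d 1 ≠ d 2) :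
    colD phi 3 d = G (d 0) (d 1) (d 2) := by
  rcases lt_or_gt_of_ne h1 with h1 | h1 <;> rcases lt_or_gt_of_ne h2 with h2 | h2
  · have hi : IncOn 3 d := by
      intro a b hab hb
      interval_cases b <;> interval_cases a
      · exact h1
      · exact h1.trans h2
      · exact h2
    have hu : Up 3 d := fun i hi' => hi i (i + 1) (by omega) hi'
    rw [G_inc h1 h2]
    unfold colD
    rw [if_pos (Or.inl hu), phi_eq hi]
    rfl
  · rw [colD_of phi (i := 0) (j := 1) (by omega) (by omega) h1 h2, G_max h1 h2]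
    exact decide_eq_true h1
  · rw [colD_of phi (i := 1) (j := 0) (by omega) (by omega) h2 h1, G_min h1 h2]
    exact decide_eq_false (by omega)
  · have hi : IncOn 3 (fun i => d (2 - i)) := by
      intro a b hab hb
      interval_cases b <;> interval_cases a
      · exact h2
      · exact h2.trans h1
      · exact h1
    have e1 : (range 3).image d = (range 3).image fun i => d (2 - i) := by
      ext x
      simp only [mem_image, mem_range]
      constructor
      · rintro ⟨i, hi, rfl⟩
        exact ⟨2 - i, by omega, by congr 1; omega⟩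
      · rintro ⟨i, hi, rfl⟩
        exact ⟨2 - i, by omega, rfl⟩
    have hu : Dn 3 d := by
      intro i hi'
      have : i = 0 ∨ i = 1 := by omega
      rcases this with rfl | rfl
      · exact h1
      · exact h2
    rw [G_dec h1 h2]
    unfold colD
    rw [if_pos (Or.inr hu), e1, phi_eq hi]
    rfl

/-- the colour after the deletion of a point -/
lemma colS_erase (χ : Finset ℕ → Bool) {m : ℕ} (hm : 2 ≤ m) {y : ℕ → ℕ} (hy : IncOn (m + 2) y)
    {i : ℕ} (hi : i ≤ m + 1) :
    colS χ m (((range (m + 2)).image y).erase (y i)) = colD χ m (dd (dl y) i) := by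
  have h1 := image_skip (m := m + 1) (d := y) (inc_injOn hy) hi
  have h2 : IncOn (m + 1) (fun j => y (skip i j)) := by
    intro a b hab hb
    refine hy _ _ ?_ ?_
    · unfold skip; split_ifs <;> omega
    · unfold skip; split_ifs <;> omega
  rw [← h1, colS_eq χ (by omega) h2]
  refine colD_congr χ (by omega) fun j hj => ?_
  change suD (y (skip i j)) (y (skip i (j + 1))) = dd (dl y) i j
  unfold dd dl skip
  by_cases h3 : j + 1 < i
  · rw [if_pos h3, if_pos (by omega), if_pos h3]
  · rw [if_neg h3]
    by_cases h4 : j + 1 = i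
    · have h5 : j < i := by omega
      have h6 : ¬ (j + 1 < i) := h3
      rw [if_pos h4, if_pos h5, if_neg h6]
      exact suD_max (hy _ _ (by omega) (by omega)) (hy _ _ (by omega) (by omega))
    · have h5 : ¬ (j < i) := by omega
      rw [if_neg h4, if_neg h5, if_neg h3]

/-- the numbers of red quadruples of five points -/
lemma four_count (V : Finset ℕ) (hV : V.card = 5) :
    ((V.powersetCard 4).filter fun e => colS phi 3 e = true).card ≠ 2 ∧
    ((V.powersetCard 4).filter fun e => colS phi 3 e = true).card ≠ 4 := by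
  obtain ⟨y, hy, rfl⟩ := exists_enum hV
  have hy0 : ∀ i, i < 4 → y i < y (i + 1) := fun i hi => hy i (i + 1) (by omega) (by omega)
  rw [count_eq _ hV, filter_image, card_image_of_injOn
    ((inc_injOn hy).mono (by
      intro x hx
      exact (mem_filter.1 hx).1)), card_filter]
  have hn : ∀ i, i < 3 → dl y i ≠ dl y (i + 1) := fun i hi =>
    suD_ne (hy _ _ (by omega) (by omega)) (hy _ _ (by omega) (by omega))
  have n01 : dl y 0 ≠ dl y 1 := hn 0 (by omega)
  have n12 : dl y 1 ≠ dl y 2 := hn 1 (by omega)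
  have n23 : dl y 2 ≠ dl y 3 := hn 2 (by omega)
  have m01 : suD (y 0) (y 2) = max (dl y 0) (dl y 1) := suD_max (hy0 0 (by omega)) (hy0 1 (by omega))
  have m12 : suD (y 1) (y 3) = max (dl y 1) (dl y 2) := suD_max (hy0 1 (by omega)) (hy0 2 (by omega))
  have m23 : suD (y 2) (y 4) = max (dl y 2) (dl y 3) := suD_max (hy0 2 (by omega)) (hy0 3 (by omega))
  have d1 : max (dl y 0) (dl y 1) ≠ dl y 2 := by
    rw [← m01]; exact suD_ne (hy 0 2 (by omega) (by omega)) (hy 2 3 (by omega) (by omega))
  have d2 : dl y 0 ≠ max (dl y 1) (dl y 2) := by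
    rw [← m12]; exact suD_ne (hy 0 1 (by omega) (by omega)) (hy 1 3 (by omega) (by omega))
  have d3 : max (dl y 1) (dl y 2) ≠ dl y 3 := by
    rw [← m12]; exact suD_ne (hy 1 3 (by omega) (by omega)) (hy 3 4 (by omega) (by omega))
  have d4 : dl y 1 ≠ max (dl y 2) (dl y 3) := by
    rw [← m23]; exact suD_ne (hy 1 2 (by omega) (by omega)) (hy 2 4 (by omega) (by omega))
  have c0 : colS phi 3 (((range 5).image y).erase (y 0)) = G (dl y 1) (dl y 2) (dl y 3) := by
    rw [colS_erase phi (by omega) hy (by omega)]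
    exact colD_phi n12 n23
  have c1 : colS phi 3 (((range 5).image y).erase (y 1))
      = G (max (dl y 0) (dl y 1)) (dl y 2) (dl y 3) := by
    rw [colS_erase phi (by omega) hy (by omega)]
    exact colD_phi d1 n23
  have c2 : colS phi 3 (((range 5).image y).erase (y 2))
      = G (dl y 0) (max (dl y 1) (dl y 2)) (dl y 3) := by
    rw [colS_erase phi (by omega) hy (by omega)]
    exact colD_phi d2 d3
  have c3 : colS phi 3 (((range 5).image y).erase (y 3))
      = G (dl y 0) (dl y 1) (max (dl y 2) (dl y 3)) := by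
    rw [colS_erase phi (by omega) hy (by omega)]
    exact colD_phi n01 d4
  have c4 : colS phi 3 (((range 5).image y).erase (y 4)) = G (dl y 0) (dl y 1) (dl y 2) := by
    rw [colS_erase phi (by omega) hy (by omega)]
    exact colD_phi n01 n12
  have key := count5 (dl y 0) (dl y 1) (dl y 2) (dl y 3) n01 n12 n23 d1 d2 d3 d4
  have hsum : (∑ i ∈ range 5, if colS phi 3 (((range 5).image y).erase (y i)) = true then 1 else 0)
      = (G (dl y 1) (dl y 2) (dl y 3)).toNat + (G (max (dl y 0) (dl y 1)) (dl y 2) (dl y 3)).toNat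
      + (G (dl y 0) (max (dl y 1) (dl y 2)) (dl y 3)).toNat
      + (G (dl y 0) (dl y 1) (max (dl y 2) (dl y 3))).toNat
      + (G (dl y 0) (dl y 1) (dl y 2)).toNat := by
    have ht : ∀ b : Bool, (if b = true then 1 else 0) = b.toNat := by decide
    rw [sum_range_succ, sum_range_succ, sum_range_succ, sum_range_succ, sum_range_succ,
      sum_range_zero, zero_add, c0, c1, c2, c3, c4, ht, ht, ht, ht, ht]
  rw [hsum]
  exact key

/-- **The colourings.** -/
theorem exists_col (s k : ℕ) : ∃ c : Finset ℕ → Bool,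
    (∀ S ⊆ range (tow (s + 2) k), 2 ^ (s + 1) * (k + 6) ≤ S.card + (s + 5) →
      ∀ q, ∃ e ⊆ S, e.card = s + 4 ∧ c e = q) ∧
    NotOne c (s + 4) (tow (s + 2) k) ∧
    (s = 0 → ∀ V : Finset ℕ, V.card = 5 →
      ((V.powersetCard 4).filter fun e => c e = true).card ≠ 2) := by
  induction s with
  | zero =>
    refine ⟨colS phi 3, ?_, ?_, fun _ V hV => (four_count V hV).1⟩
    · intro S hS hc q
      exact hom_step phi (le_refl 3) (phi_hom k) S hS (by omega) q
    · exact notOne_of fun V _ hV => (four_count V hV).2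
  | succ s ih =>
    obtain ⟨c, h1, h2, -⟩ := ih
    refine ⟨colS c (s + 4), ?_, ?_, fun h => absurd h (by omega)⟩
    · intro S hS hc q
      obtain ⟨f, hf⟩ : ∃ f, f = 2 ^ (s + 1) * (k + 6) - (s + 5) := ⟨_, rfl⟩
      have hpow : s + 5 ≤ 2 ^ (s + 1) * (k + 6) := by
        have h3 : s + 1 < 2 ^ (s + 1) := Nat.lt_two_pow_self
        have h4 : 2 ^ (s + 1) * 6 ≤ 2 ^ (s + 1) * (k + 6) :=
          Nat.mul_le_mul_left _ (by omega)
        omega
      have h5 : 2 ^ (s + 1 + 1) * (k + 6) = 2 * (2 ^ (s + 1) * (k + 6)) := by ring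
      rw [h5] at hc
      refine hom_step c (f := f) (by omega) (fun Y hY hYc => h1 Y hY (by omega)) S hS (by omega) q
    · exact type_step c (by omega) h2

/-- **Sharpness.** For `r ≥ 4` and `t = 1`, `t = r`, and for `r = 4` and all `1 ≤ t ≤ 4`, there are
two-colourings of the `r`-subsets of `T_(r-2) (k)` points without homogeneous set of size
`2 ^ (r - 3) (k + 6)` such that no `r + 1` points have exactly `t` red `r`-subsets. -/
theorem sharp (r k t : ℕ) (hr : 4 ≤ r) (ht : t = 1 ∨ t = r ∨ (r = 4 ∧ 1 ≤ t ∧ t ≤ 4)) :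
    ∃ c : Finset ℕ → Bool,
      (∀ S ⊆ range (tow (r - 2) k), 2 ^ (r - 3) * (k + 6) ≤ S.card →
        ∀ q : Bool, ∃ e ⊆ S, e.card = r ∧ c e = q) ∧
      ∀ V ⊆ range (tow (r - 2) k), V.card = r + 1 →
        ((V.powersetCard r).filter fun e => c e = true).card ≠ t := by
  obtain ⟨s, rfl⟩ : ∃ s, r = s + 4 := ⟨r - 4, by omega⟩
  have e1 : s + 4 - 2 = s + 2 := by omega
  have e2 : s + 4 - 3 = s + 1 := by omega
  rw [e1, e2]
  obtain ⟨c, h1, h2, h3⟩ := exists_col s k
  have hcount : ∀ V ⊆ range (tow (s + 2) k), V.card = s + 4 + 1 →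
      ((V.powersetCard (s + 4)).filter fun e => c e = true).card ≠ s + 4 ∧
      (s = 0 → ((V.powersetCard (s + 4)).filter fun e => c e = true).card ≠ 2) :=
    fun V hVN hV => ⟨count_ne h2 hVN hV, fun hs => by subst hs; exact h3 rfl V hV⟩
  have hcompl : ∀ V : Finset ℕ, V.card = s + 4 + 1 →
      ((V.powersetCard (s + 4)).filter fun e => c e = true).card +
        ((V.powersetCard (s + 4)).filter fun e => (!c e) = true).card = s + 5 := by
    intro V hV
    have h4 := Finset.card_filter_add_card_filter_not (s := V.powersetCard (s + 4))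
      (fun e => c e = true)
    rw [card_powersetCard, hV, Nat.choose_succ_self_right] at h4
    rw [← h4]
    congr 2
    ext e
    simp
  have hc1 : (t = s + 4 ∨ (s = 0 ∧ (t = 2 ∨ t = 4))) ∨ (t = 1 ∨ (s = 0 ∧ (t = 3 ∨ t = 1))) := by
    omega
  rcases hc1 with hc1 | hc1
  · refine ⟨c, fun S hS hc q => h1 S hS (by omega) q, fun V hVN hV => ?_⟩
    obtain ⟨h4, h5⟩ := hcount V hVN hV
    rcases hc1 with rfl | ⟨rfl, rfl | rfl⟩
    · exact h4
    · exact h5 rfl
    · exact h4
  · refine ⟨fun e => !c e, fun S hS hc q => ?_, fun V hVN hV => ?_⟩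
    · obtain ⟨e, he, he1, he2⟩ := h1 S hS (by omega) (!q)
      exact ⟨e, he, he1, by simp [he2]⟩
    · obtain ⟨h4, h5⟩ := hcount V hVN hV
      have h6 := hcompl V hV
      rcases hc1 with rfl | ⟨rfl, rfl | rfl⟩
      · intro h7
        have h8 : ((V.powersetCard (s + 4)).filter fun e => (!c e) = true).card = 1 := h7
        omega
      · intro h7
        have h8 : ((V.powersetCard (0 + 4)).filter fun e => (!c e) = true).card = 3 := h7
        have h9 := h5 rfl
        omega
      · intro h7
        have h8 : ((V.powersetCard (0 + 4)).filter fun e => (!c e) = true).card = 1 := h7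
        omega

end Pool.Agent.U843.EC
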