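import Pool.Agent.U843.EC.Seq

/-!
# Stepping up from `m`-subsets to `m + 1`-subsets
-/

set_option autoImplicit false

open Finset

namespace Pool.Agent.U843.EC

open Jump764.M_stepup

/-- increasing on the indices below `n` -/
def IncOn (n : ℕ) (y : ℕ → ℕ) : Prop := ∀ i j, i < j → j < n → y i < y j

/-- the consecutive differences -/
noncomputable def dl (y : ℕ → ℕ) (i : ℕ) : ℕ := suD (y i) (y (i + 1))

open Classical in
/-- the colouring of the `m + 1`-subsets obtained from the colouring `χ` of the `m`-subsets -/
noncomputable def colS (χ : Finset ℕ → Bool) (m : ℕ) (V : Finset ℕ) : Bool :=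
  decide (∃ y, IncOn (m + 1) y ∧ V = (range (m + 1)).image y ∧ colD χ m (dl y) = true)

lemma inc_injOn {n : ℕ} {y : ℕ → ℕ} (h : IncOn n y) : Set.InjOn y (range n : Finset ℕ) := by
  intro i hi j hj hij
  rw [Finset.mem_coe, mem_range] at hi hj
  rcases lt_trichotomy i j with h2 | h2 | h2
  · exact absurd hij (h i j h2 hj).ne
  · exact h2
  · exact absurd hij (h j i h2 hi).ne'

lemma inc_card {n : ℕ} {y : ℕ → ℕ} (h : IncOn n y) : ((range n).image y).card = n := by
  rw [card_image_of_injOn (inc_injOn h), card_range]

lemma inc_unique {n : ℕ} {y y' : ℕ → ℕ} (h : IncOn n y) (h' : IncOn n y')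
    (he : (range n).image y = (range n).image y') : ∀ i < n, y i = y' i := by
  intro i hi
  have hc := inc_card h
  have e1 : (fun i : Fin n => y i) = ((range n).image y).orderEmbOfFin hc :=
    orderEmbOfFin_unique hc (fun x => mem_image_of_mem _ (by simp)) fun a b hab => h _ _ hab b.2
  have e2 : (fun i : Fin n => y' i) = ((range n).image y).orderEmbOfFin hc :=
    orderEmbOfFin_unique hc (fun x => by rw [he]; exact mem_image_of_mem _ (by simp))
      fun a b hab => h' _ _ hab b.2
  exact congrFun (e1.trans e2.symm) ⟨i, hi⟩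

lemma exists_enum {V : Finset ℕ} {n : ℕ} (hV : V.card = n) :
    ∃ y, IncOn n y ∧ V = (range n).image y := by
  refine ⟨fun i => if h : i < n then V.orderEmbOfFin hV ⟨i, h⟩ else 0, ?_, ?_⟩
  · intro i j hij hj
    simp only [dif_pos hj, dif_pos (hij.trans hj)]
    exact (V.orderEmbOfFin hV).strictMono hij
  · ext x
    rw [mem_image]
    constructor
    · intro hx
      have h1 : x ∈ Set.range (V.orderEmbOfFin hV) := by
        rw [range_orderEmbOfFin]; exact hx
      obtain ⟨i, hi⟩ := h1
      exact ⟨i, mem_range.2 i.2, by simp only [dif_pos i.2]; exact hi⟩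
    · rintro ⟨i, hi, rfl⟩
      rw [mem_range] at hi
      simp only [dif_pos hi]
      exact orderEmbOfFin_mem _ _ _

lemma colS_eq (χ : Finset ℕ → Bool) {m : ℕ} (hm : 2 ≤ m) {y : ℕ → ℕ} (hy : IncOn (m + 1) y) :
    colS χ m ((range (m + 1)).image y) = colD χ m (dl y) := by
  classical
  unfold colS
  cases h : colD χ m (dl y)
  · refine decide_eq_false ?_
    rintro ⟨y', hy', he, h2⟩
    have h3 := inc_unique hy hy' he
    have h4 : colD χ m (dl y) = colD χ m (dl y') := by
      refine colD_congr χ hm fun i hi => ?_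
      unfold dl
      rw [h3 i (by omega), h3 (i + 1) (by omega)]
    rw [h4, h2] at h
    exact absurd h (by simp)
  · exact decide_eq_true ⟨y, hy, rfl, h⟩

/-- the number of blue sets is not one: inherited when stepping up -/
theorem type_step (χ : Finset ℕ → Bool) {m M : ℕ} (hm : 3 ≤ m)
    (hχ : ∀ D ⊆ range M, D.card = m + 1 → ∀ x ∈ D, χ (D.erase x) = false →
      ∃ x' ∈ D, x' ≠ x ∧ χ (D.erase x') = false) :
    ∀ V ⊆ range (2 ^ M), V.card = m + 2 → ∀ x ∈ V, colS χ m (V.erase x) = false →
      ∃ x' ∈ V, x' ≠ x ∧ colS χ m (V.erase x') = false := by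
  intro V hVM hV x hx hb
  obtain ⟨y, hy, rfl⟩ := exists_enum hV
  have hcol : ∀ i ≤ m + 1, colS χ m (((range (m + 2)).image y).erase (y i)) =
      colD χ m (dd (dl y) i) := by
    intro i hi
    have h1 := image_skip (m := m + 1) (d := y) (inc_injOn hy) hi
    have h2 : IncOn (m + 1) (fun j => y (skip i j)) := by
      intro a b hab hb
      refine hy _ _ ?_ ?_
      · unfold skip; split_ifs <;> omega
      · unfold skip; split_ifs <;> omega
    rw [← h1, colS_eq χ (by omega) h2]
    refine colD_congr χ (by omega) fun j hj => ?_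
    change suD (y (skip i j)) (y (skip i (j + 1))) = dd (dl y) i j
    unfold dd dl skip
    by_cases h3 : j + 1 < i
    · rw [if_pos h3, if_pos (by omega), if_pos h3]
    · rw [if_neg h3]
      by_cases h4 : j + 1 = i
      · have h5 : j < i := by omega
        have h6 : ¬ (j + 1 < i) := h3
        rw [if_pos h4, if_pos h5, if_neg h6]
        exact suD_max (hy _ _ (by omega) (by omega)) (hy _ _ (by omega) (by omega))
      · have h5 : ¬ (j < i) := by omega
        rw [if_neg h4, if_neg h5, if_neg h3]
  have hmem : ∀ i ≤ m + 1, y i < 2 ^ M := by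
    intro i hi
    exact mem_range.1 (hVM (mem_image_of_mem _ (mem_range.2 (by omega))))
  rw [mem_image] at hx
  obtain ⟨i, hi, rfl⟩ := hx
  rw [mem_range] at hi
  rw [hcol i (by omega)] at hb
  obtain ⟨i', hi', h1, h2⟩ := two_blue χ hm (d := dl y) (fun j hj =>
      suD_ne (hy _ _ (by omega) (by omega)) (hy _ _ (by omega) (by omega))) (fun hmon j hj hj2 => by
    have hinj : Set.InjOn (dl y) (range (m + 1) : Finset ℕ) := by
      rcases hmon with h | h
      · exact up_injOn h
      · exact dn_injOn h
    have hD : (range (m + 1)).image (dl y) ⊆ range M := by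
      intro v hv
      rw [mem_image] at hv
      obtain ⟨l, hl, rfl⟩ := hv
      rw [mem_range] at hl ⊢
      exact suD_lt (hmem l (by omega)) (hmem (l + 1) (by omega)) (hy _ _ (by omega) (by omega))
    obtain ⟨x', hx', h3, h4⟩ := hχ _ hD (by rw [card_image_of_injOn hinj, card_range]) (dl y j)
      (mem_image_of_mem _ (mem_range.2 (by omega))) hj2
    rw [mem_image] at hx'
    obtain ⟨j', hj', rfl⟩ := hx'
    rw [mem_range] at hj'
    exact ⟨j', by omega, fun h => h3 (by rw [h]), h4⟩) (by omega) hb
  refine ⟨y i', mem_image_of_mem _ (mem_range.2 (by omega)), fun h => h1 ?_, ?_⟩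
  · exact inc_injOn hy (by simpa using (by omega : i' < m + 2)) (by simpa using hi) h
  · rw [hcol i' hi']
    exact h2

/-- no large homogeneous sets: inherited when stepping up -/
theorem hom_step (χ : Finset ℕ → Bool) {m M f : ℕ} (hm : 3 ≤ m)
    (hχ : ∀ Y ⊆ range M, f ≤ Y.card → ∀ c, ∃ e ⊆ Y, e.card = m ∧ χ e = c) :
    ∀ S ⊆ range (2 ^ M), 2 * f + m ≤ S.card → ∀ c, ∃ e ⊆ S, e.card = m + 1 ∧ colS χ m e = c := by
  intro S hSM hS c
  by_contra hcon
  push Not at hcon
  have hf : 1 ≤ f := by
    by_contra h0
    obtain ⟨e, he, he3, -⟩ := hχ ∅ (by simp) (by omega) true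
    rw [Finset.subset_empty.1 he] at he3
    simp at he3
    omega
  obtain ⟨n, hn⟩ : ∃ n, n = S.card := ⟨_, rfl⟩
  rw [← hn] at hS
  obtain ⟨y, hy, rfl⟩ := exists_enum hn.symm
  have hmem : ∀ i < n, y i < 2 ^ M := fun i hi =>
    mem_range.1 (hSM (mem_image_of_mem _ (mem_range.2 hi)))
  have hne : ∀ i, i + 2 < n → dl y i ≠ dl y (i + 1) := fun i hi =>
    suD_ne (hy _ _ (by omega) (by omega)) (hy _ _ (by omega) (by omega))
  -- the colour of the set with the indices `z`
  have hz : ∀ z : ℕ → ℕ, IncOn (m + 1) z → z m < n → colD χ m (dl fun j => y (z j)) ≠ c := by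
    intro z hz hzm
    have hzl : ∀ l, l < m + 1 → z l < n := by
      intro l hl
      rcases Nat.lt_or_ge l m with h | h
      · exact (hz l m h (by omega)).trans hzm
      · have : l = m := by omega
        rw [this]; exact hzm
    have h1 : IncOn (m + 1) (fun j => y (z j)) := fun a b hab hb =>
      hy _ _ (hz a b hab hb) (hzl b hb)
    rw [← colS_eq χ (by omega) h1]
    refine hcon _ ?_ (inc_card h1)
    intro v hv
    rw [mem_image] at hv
    obtain ⟨l, hl, rfl⟩ := hv
    exact mem_image_of_mem _ (mem_range.2 (hzl l (mem_range.1 hl)))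
  have hstep : ∀ i, i + 3 < 2 * f → ((c = true → dl y i < dl y (i + 1) →
      dl y (i + 1) < dl y (i + 2)) ∧
      (c = false → ¬ dl y i < dl y (i + 1) → ¬ dl y (i + 1) < dl y (i + 2))) := by
    intro i hi
    have h1 := hne i (by omega)
    have h2 : dl y (i + 1) ≠ dl y (i + 2) := hne (i + 1) (by omega)
    have h3 := hz (fun j => i + j) (fun a b hab _ => Nat.add_lt_add_left hab i) (by
      change i + m < n; omega)
    have e0 : dl (fun j => y (i + j)) 0 = dl y i := rfl
    have e1 : dl (fun j => y (i + j)) 1 = dl y (i + 1) := rfl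
    have e2 : dl (fun j => y (i + j)) 2 = dl y (i + 2) := rfl
    constructor
    · intro hc h4
      by_contra h5
      apply h3
      rw [hc, colD_of χ (i := 0) (j := 1) (by omega) (by omega), decide_eq_true_iff]
      · rw [e0, e1]; exact h4
      · change dl (fun j => y (i + j)) 0 < dl (fun j => y (i + j)) 1
        rw [e0, e1]; exact h4
      · change dl (fun j => y (i + j)) 2 < dl (fun j => y (i + j)) 1
        rw [e2, e1]; omega
    · intro hc h4 h5
      apply h3
      rw [hc, colD_of χ (i := 1) (j := 0) (by omega) (by omega), decide_eq_false_iff_not]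
      · rw [e0, e1]; exact h4
      · change dl (fun j => y (i + j)) 1 < dl (fun j => y (i + j)) 2
        rw [e2, e1]; exact h5
      · change dl (fun j => y (i + j)) 1 < dl (fun j => y (i + j)) 0
        rw [e0, e1]; omega
  have hrun : ∃ s, s + f + 1 ≤ 2 * f ∧ ((∀ i, s ≤ i → i + 1 < s + f → dl y i < dl y (i + 1)) ∨
      (∀ i, s ≤ i → i + 1 < s + f → ¬ dl y i < dl y (i + 1))) := by
    rcases hc : c with _ | _
    · obtain ⟨s, hs, h | h⟩ := su_run f hf (fun i => ¬ dl y i < dl y (i + 1))
        (fun i hi => (hstep i hi).2 hc)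
      · exact ⟨s, hs, Or.inr h⟩
      · exact ⟨s, hs, Or.inl fun i hi hi2 => not_not.1 (h i hi hi2)⟩
    · exact su_run f hf (fun i => dl y i < dl y (i + 1)) (fun i hi => (hstep i hi).1 hc)
  obtain ⟨s, hs, hrun⟩ := hrun
  obtain ⟨Y, hY⟩ : ∃ Y : Finset ℕ, Y = (Ico s (s + f)).image (dl y) := ⟨_, rfl⟩
  have hYM : Y ⊆ range M := by
    intro v hv
    rw [hY, mem_image] at hv
    obtain ⟨i, hi, rfl⟩ := hv
    rw [mem_Ico] at hi
    rw [mem_range]
    exact suD_lt (hmem i (by omega)) (hmem (i + 1) (by omega)) (hy _ _ (by omega) (by omega))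
  have hend : ∀ hinj : Set.InjOn (dl y) (Ico s (s + f) : Finset ℕ), ∃ j : ℕ → ℕ, IncOn m j ∧
      (∀ l < m, s ≤ j l ∧ j l < s + f) ∧ χ ((range m).image fun l => dl y (j l)) = c := by
    intro hinj
    have hYc : Y.card = f := by
      rw [hY, card_image_of_injOn hinj, Nat.card_Ico]
      omega
    obtain ⟨e, heY, he3, hec⟩ := hχ Y hYM hYc.ge c
    rw [hY, Finset.subset_image_iff] at heY
    obtain ⟨J, hJ, rfl⟩ := heY
    have hJ3 : J.card = m := by
      rw [card_image_of_injOn (hinj.mono hJ)] at he3
      exact he3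
    obtain ⟨j, hj, rfl⟩ := exists_enum hJ3
    refine ⟨j, hj, fun l hl => mem_Ico.1 (hJ (mem_image_of_mem _ (mem_range.2 hl))), ?_⟩
    rw [← hec, Finset.image_image]
    rfl
  rcases hrun with hrun | hrun
  · -- increasing
    have hmono := su_chain (r := fun a b => a < b) (fun a b c h1 h2 => lt_trans h1 h2) (dl y) s
      (s + f) hrun
    have hinj : Set.InjOn (dl y) (Ico s (s + f) : Finset ℕ) := by
      intro i hi j hj hij
      rw [Finset.mem_coe, mem_Ico] at hi hj
      rcases lt_trichotomy i j with h | h | h
      · exact absurd hij (hmono i j hi.1 h hj.2).ne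
      · exact h
      · exact absurd hij (hmono j i hj.1 h hi.2).ne'
    obtain ⟨j, hj, hjs, hjc⟩ := hend hinj
    refine hz (fun l => if l = 0 then j 0 else j (l - 1) + 1) ?_ ?_ ?_
    · intro a b hab hb
      have h1 : ¬ (b = 0) := by omega
      by_cases ha : a = 0
      · simp only [if_pos ha, if_neg h1]
        rcases Nat.eq_zero_or_pos (b - 1) with h2 | h2
        · rw [h2]; omega
        · have := hj 0 (b - 1) h2 (by omega)
          omega
      · simp only [if_neg ha, if_neg h1]
        have := hj (a - 1) (b - 1) (by omega) (by omega)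
        omega
    · have h1 : ¬ (m = 0) := by omega
      simp only [if_neg h1]
      have := hjs (m - 1) (by omega)
      omega
    · have e1 : ∀ l < m, dl (fun l => y (if l = 0 then j 0 else j (l - 1) + 1)) l = dl y (j l) := by
        intro l hl
        have hl1 := hjs l hl
        unfold dl
        have h1 : ¬ (l + 1 = 0) := by omega
        simp only [if_neg h1, Nat.add_sub_cancel]
        by_cases h0 : l = 0
        · subst h0
          simp only [if_true]
        · simp only [if_neg h0]
          have h2 := hjs (l - 1) (by omega)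
          have h3 := hj (l - 1) l (by omega) hl
          have h4 := su_inc n y hy (j (l - 1) + 1) (j l + 1) (by omega) (by omega)
            (fun q hq hq2 => hrun q (by omega) (by omega))
          rw [h4, Nat.add_sub_cancel]
      have hu : Up m (fun i => dl y (j i)) := fun l hl =>
        hmono _ _ (hjs l (by omega)).1 (hj _ _ (by omega) hl) (hjs _ hl).2
      rw [colD_congr χ (by omega) e1]
      unfold colD
      rw [if_pos (Or.inl hu)]
      exact hjc
  · -- decreasing
    have hrun' : ∀ i, s ≤ i → i + 1 < s + f → dl y (i + 1) < dl y i := by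
      intro i hi hi2
      have h1 := hrun i hi hi2
      have h2 := hne i (by omega)
      omega
    have hmono := su_chain (r := fun a b => b < a) (fun a b c h1 h2 => lt_trans h2 h1) (dl y) s
      (s + f) hrun'
    have hinj : Set.InjOn (dl y) (Ico s (s + f) : Finset ℕ) := by
      intro i hi j hj hij
      rw [Finset.mem_coe, mem_Ico] at hi hj
      rcases lt_trichotomy i j with h | h | h
      · exact absurd hij (ne_of_gt (hmono i j hi.1 h hj.2))
      · exact h
      · exact absurd hij (ne_of_lt (hmono j i hj.1 h hi.2))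
    obtain ⟨j, hj, hjs, hjc⟩ := hend hinj
    refine hz (fun l => if l < m then j l else j (m - 1) + 1) ?_ ?_ ?_
    · intro a b hab hb
      have h1 : a < m := by omega
      by_cases hb1 : b < m
      · simp only [if_pos h1, if_pos hb1]
        exact hj a b hab hb1
      · simp only [if_pos h1, if_neg hb1]
        rcases Nat.lt_or_ge a (m - 1) with h2 | h2
        · have := hj a (m - 1) h2 (by omega)
          omega
        · have h3 : a = m - 1 := by omega
          rw [h3]; omega
    · have h1 : ¬ (m < m) := by omega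
      simp only [if_neg h1]
      have := hjs (m - 1) (by omega)
      omega
    · have e1 : ∀ l < m, dl (fun l => y (if l < m then j l else j (m - 1) + 1)) l = dl y (j l) := by
        intro l hl
        have hl1 := hjs l hl
        unfold dl
        simp only [if_pos hl]
        by_cases h0 : l + 1 < m
        · simp only [if_pos h0]
          have h2 := hjs (l + 1) h0
          have h3 := hj l (l + 1) (by omega) h0
          exact su_dec n y hy (j l) (j (l + 1)) h3 (by omega)
            (fun q hq hq2 => hrun' q (by omega) (by omega))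
        · simp only [if_neg h0]
          have h3 : m - 1 = l := by omega
          rw [h3]
      have hu : Dn m (fun i => dl y (j i)) := fun l hl =>
        hmono _ _ (hjs l (by omega)).1 (hj _ _ (by omega) hl) (hjs _ hl).2
      rw [colD_congr χ (by omega) e1]
      unfold colD
      rw [if_pos (Or.inr hu)]
      exact hjc

end Pool.Agent.U843.EC
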